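import Pool.Agent.Y882.GX.Sq3
import Pool.Agent.Y882.PY.Use

/-! Values of `n ^ 3 + k` divisible by the squares of medium primes. -/

set_option autoImplicit false

namespace Pool.Agent.K3h21.MK

open Finset Polynomial Filter
open Pool.Agent.W23.DC
open Pool.Agent.Y882
open Pool.Agent.Y882.PX
open Pool.Agent.Y882.KW
open Pool.Agent.Y882.SI
open Pool.Agent.Y882.GW

/-- `n ^ 3 + k` is divisible by the square of a medium prime -/
def SqB (Y : ℕ) (ζ υ : ℝ) (k : ℤ) (n : ℕ) : Prop :=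
  ∃ q ∈ pr Y ζ υ, ((q ^ 2 : ℕ) : ℤ) ∣ (n : ℤ) ^ 3 + k

theorem kf3 : KF (X ^ 3 : ℤ[X]) = 3 := by
  unfold KF
  rw [natDegree_X_pow, leadingCoeff_X_pow]
  simp

theorem ro3 (k : ℤ) (q : ℕ) : ro (X ^ 3 : ℤ[X]) k q =
    ((range q).filter (fun n : ℕ => (q : ℤ) ∣ (n : ℤ) ^ 3 + k)).card := by
  rw [ro_eq]
  simp

theorem ro3_le (k : ℤ) (q : ℕ) (hq : q.Prime) : ro (X ^ 3 : ℤ[X]) k q ≤ 3 := by
  have := ro_le (X ^ 3 : ℤ[X]) (by rw [natDegree_X_pow]; norm_num) k q hq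
  rwa [kf3] at this

open Classical in
/-- one prime not dividing `k` -/
theorem cube_count (k : ℤ) (q : ℕ) (hq : q.Prime) (h3 : 3 < q) (hk : ¬ (q : ℤ) ∣ k) (M : ℕ) :
    (((Icc 1 M).filter (fun n : ℕ => ((q ^ 2 : ℕ) : ℤ) ∣ (n : ℤ) ^ 3 + k)).card : ℝ) ≤
      3 * (M / (q : ℝ) ^ 2 + 1) := by
  set A := (Icc 1 M).filter (fun n : ℕ => ((q ^ 2 : ℕ) : ℤ) ∣ (n : ℤ) ^ 3 + k) with hA
  have hq0 : 0 < q := hq.pos
  have hqp : Prime (q : ℤ) := Nat.prime_iff_prime_int.1 hq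
  have hqd : ∀ n ∈ A, (q : ℤ) ∣ (n : ℤ) ^ 3 + k := by
    intro n hn
    rw [hA, mem_filter] at hn
    refine dvd_trans ?_ hn.2
    push_cast
    exact dvd_pow_self _ (by norm_num)
  have himg : (A.image (fun n => n % q)).card ≤ 3 := by
    have hro := ro3_le k q hq
    rw [ro3] at hro
    refine le_trans (card_le_card ?_) hro
    intro r hr
    rw [mem_image] at hr
    obtain ⟨n, hn, rfl⟩ := hr
    rw [mem_filter, mem_range]
    refine ⟨Nat.mod_lt _ hq0, ?_⟩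
    have h1 : (q : ℤ) ∣ (n : ℤ) - ((n % q : ℕ) : ℤ) := by
      rw [Int.natCast_mod]
      exact Int.dvd_self_sub_emod
    have h2 : ((n : ℤ) - ((n % q : ℕ) : ℤ)) ∣ (n : ℤ) ^ 3 - ((n % q : ℕ) : ℤ) ^ 3 := sub_dvd_pow_sub_pow _ _ 3
    have h4 := dvd_sub (hqd n hn) (h1.trans h2)
    have e : (n : ℤ) ^ 3 + k - ((n : ℤ) ^ 3 - ((n % q : ℕ) : ℤ) ^ 3) = ((n % q : ℕ) : ℤ) ^ 3 + k := by ring
    rwa [e] at h4
  have hfib : ∀ r ∈ A.image (fun n => n % q), ((A.filter (fun n => n % q = r)).card : ℝ) ≤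
      M / (q : ℝ) ^ 2 + 1 := by
    intro r hr
    rw [mem_image] at hr
    obtain ⟨n0, hn0, hr0⟩ := hr
    have hsub : A.filter (fun n => n % q = r) ⊆
        (Icc 1 M).filter (fun n : ℕ => ((q ^ 2 : ℕ) : ℤ) ∣ (n : ℤ) - (n0 : ℤ)) := by
      intro n hn
      rw [mem_filter] at hn
      obtain ⟨hnA, hnr⟩ := hn
      have hn1 := hnA
      have hn01 := hn0
      rw [hA, mem_filter] at hn1 hn01
      rw [mem_filter]
      refine ⟨hn1.1, ?_⟩
      have hmod : (q : ℤ) ∣ (n : ℤ) - n0 := by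
        have : n % q = n0 % q := by rw [hnr, ← hr0]
        have h5 : (n0 : ℤ) ≡ n [ZMOD q] := by
          rw [Int.natCast_modEq_iff]
          exact this.symm
        exact h5.dvd
      have hd : ((q ^ 2 : ℕ) : ℤ) ∣ ((n : ℤ) - n0) * ((n : ℤ) ^ 2 + n * n0 + (n0 : ℤ) ^ 2) := by
        have h6 := dvd_sub hn1.2 hn01.2
        have e : (n : ℤ) ^ 3 + k - ((n0 : ℤ) ^ 3 + k) =
            ((n : ℤ) - n0) * ((n : ℤ) ^ 2 + n * n0 + (n0 : ℤ) ^ 2) := by ring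
        rwa [e] at h6
      have hnq : ¬ (q : ℤ) ∣ (n : ℤ) := by
        intro h6
        apply hk
        have h7 := dvd_sub (hqd n hnA) (dvd_pow h6 (by norm_num : (3 : ℕ) ≠ 0))
        have e : (n : ℤ) ^ 3 + k - (n : ℤ) ^ 3 = k := by ring
        rwa [e] at h7
      have hcop : IsCoprime ((q ^ 2 : ℕ) : ℤ) ((n : ℤ) ^ 2 + n * n0 + (n0 : ℤ) ^ 2) := by
        push_cast
        apply IsCoprime.pow_left
        rw [hqp.coprime_iff_not_dvd]
        intro h6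
        obtain ⟨t, ht⟩ := hmod
        have h7 : (n0 : ℤ) = n - q * t := by linarith
        have h8 : (q : ℤ) ∣ 3 * (n : ℤ) ^ 2 := by
          have e : 3 * (n : ℤ) ^ 2 = ((n : ℤ) ^ 2 + n * n0 + (n0 : ℤ) ^ 2) + q * (t * (3 * n - q * t)) := by
            rw [h7]
            ring
          rw [e]
          exact dvd_add h6 (dvd_mul_right _ _)
        rcases hqp.dvd_or_dvd h8 with h9 | h9
        · have h10 : q ∣ 3 := by exact_mod_cast h9
          have := Nat.le_of_dvd (by norm_num) h10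
          omega
        · exact hnq (hqp.dvd_of_dvd_pow h9)
      exact hcop.dvd_of_dvd_mul_right hd
    have h5 := class_count (q ^ 2) (pow_pos hq0 2) M n0
    have h6 : (M : ℝ) / ((q ^ 2 : ℕ) : ℝ) + 1 = M / (q : ℝ) ^ 2 + 1 := by
      push_cast
      ring
    rw [h6] at h5
    exact le_trans (Nat.cast_le.2 (card_le_card hsub)) h5
  have hnn : (0 : ℝ) ≤ M / (q : ℝ) ^ 2 + 1 := by positivity
  calc (A.card : ℝ) = ∑ r ∈ A.image (fun n => n % q), ((A.filter (fun n => n % q = r)).card : ℝ) := by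
        exact_mod_cast card_eq_sum_card_image (fun n => n % q) A
    _ ≤ ∑ r ∈ A.image (fun n => n % q), (M / (q : ℝ) ^ 2 + 1) := sum_le_sum hfib
    _ = ((A.image (fun n => n % q)).card : ℝ) * (M / (q : ℝ) ^ 2 + 1) := by
        rw [sum_const, nsmul_eq_mul]
    _ ≤ 3 * (M / (q : ℝ) ^ 2 + 1) := by
        apply mul_le_mul_of_nonneg_right _ hnn
        exact_mod_cast himg

open Classical in
/-- one prime dividing `k` -/
theorem cube_count' (k : ℤ) (q : ℕ) (hq : q.Prime) (hk : (q : ℤ) ∣ k) (M : ℕ) :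
    (((Icc 1 M).filter (fun n : ℕ => ((q ^ 2 : ℕ) : ℤ) ∣ (n : ℤ) ^ 3 + k)).card : ℝ) ≤ M / (q : ℝ) := by
  have hqp : Prime (q : ℤ) := Nat.prime_iff_prime_int.1 hq
  have hsub : (Icc 1 M).filter (fun n : ℕ => ((q ^ 2 : ℕ) : ℤ) ∣ (n : ℤ) ^ 3 + k) ⊆
      (Ioc 0 M).filter (fun n => q ∣ n) := by
    intro n hn
    rw [mem_filter, mem_Icc] at hn
    rw [mem_filter, mem_Ioc]
    refine ⟨⟨by omega, hn.1.2⟩, ?_⟩
    have h1 : (q : ℤ) ∣ (n : ℤ) ^ 3 + k := by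
      refine dvd_trans ?_ hn.2
      push_cast
      exact dvd_pow_self _ (by norm_num)
    have h2 := dvd_sub h1 hk
    have e : (n : ℤ) ^ 3 + k - k = (n : ℤ) ^ 3 := by ring
    rw [e] at h2
    exact_mod_cast hqp.dvd_of_dvd_pow h2
  have h2 : ((Ioc 0 M).filter (fun n => q ∣ n)).card = M / q := Nat.Ioc_filter_dvd_card_eq_div M q
  calc (((Icc 1 M).filter (fun n : ℕ => ((q ^ 2 : ℕ) : ℤ) ∣ (n : ℤ) ^ 3 + k)).card : ℝ) ≤
      ((M / q : ℕ) : ℝ) := by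
        rw [← h2]
        exact_mod_cast card_le_card hsub
    _ ≤ _ := Nat.cast_div_le

/-- few large primes divide `k` -/
theorem few_div (Y : ℕ) (hY : 2 ≤ Y) (ζ υ : ℝ) (hζ : 0 < ζ) (k : ℤ) (hk : k ≠ 0) (hkY : k.natAbs ≤ Y) :
    (((pr Y ζ υ).filter (fun q : ℕ => (q : ℤ) ∣ k)).card : ℝ) ≤ 1 / ζ := by
  set S := (pr Y ζ υ).filter (fun q : ℕ => (q : ℤ) ∣ k) with hS
  have hYr : (2 : ℝ) ≤ Y := by exact_mod_cast hY
  have hY0 : (0 : ℝ) < Y := by linarith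
  have hmem : ∀ q ∈ S, q.Prime ∧ (Y : ℝ) ^ ζ ≤ q ∧ q ∣ k.natAbs := by
    intro q hq
    rw [hS, mem_filter] at hq
    obtain ⟨h1, h2, _⟩ := pr_mem Y q ζ υ hY hq.1
    exact ⟨h1, h2, Int.natCast_dvd.1 hq.2⟩
  have hprod : (∏ q ∈ S, q) ∣ k.natAbs := by
    apply Finset.prod_primes_dvd
    · intro q hq
      exact Nat.prime_iff.1 (hmem q hq).1
    · intro q hq
      exact (hmem q hq).2.2
  have hle : (∏ q ∈ S, q) ≤ Y := (Nat.le_of_dvd (Int.natAbs_pos.2 hk) hprod).trans hkY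
  have h1 : ((Y : ℝ) ^ ζ) ^ S.card ≤ ((∏ q ∈ S, q : ℕ) : ℝ) := by
    rw [← prod_const]
    push_cast
    exact Finset.prod_le_prod (fun _ _ => by positivity) (fun q hq => (hmem q hq).2.1)
  have h2 : (Y : ℝ) ^ (ζ * S.card) ≤ (Y : ℝ) ^ (1 : ℝ) := by
    rw [Real.rpow_mul hY0.le, Real.rpow_natCast, Real.rpow_one]
    exact h1.trans (by exact_mod_cast hle)
  have h3 : ζ * S.card ≤ 1 := (Real.rpow_le_rpow_left_iff (by linarith)).1 h2
  rw [le_div_iff₀ hζ]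
  linarith

open Classical in
/-- small squares, pointwise -/
theorem sq_point (ζ ξ : ℝ) (hζ : 0 < ζ) (hξ : ξ ≤ 1) : ∃ Y0 : ℕ, ∀ Y : ℕ, Y0 ≤ Y → ∀ (M : ℕ) (k : ℤ),
      k ≠ 0 → k.natAbs ≤ Y →
      (((Icc 1 M).filter (SqB Y ζ ξ k)).card : ℝ) ≤
        M * ((6 + 1 / ζ) / (Y : ℝ) ^ ζ) + 3 * (Y : ℝ) ^ ξ := by
  obtain ⟨Y0, H⟩ := pr_sq ζ ξ hζ hξ
  have ev1 : ∀ᶠ Y : ℕ in atTop, (4 : ℝ) ≤ (Y : ℝ) ^ ζ :=
    ((tendsto_rpow_atTop hζ).comp tendsto_natCast_atTop_atTop).eventually_ge_atTop _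
  obtain ⟨Y1, hY1⟩ := eventually_atTop.1 ev1
  refine ⟨max (max Y0 2) Y1, fun Y hY M k hk hkY => ?_⟩
  obtain ⟨g1, g2⟩ := H Y (((le_max_left _ _).trans (le_max_left _ _)).trans hY)
  have hY2 : 2 ≤ Y := ((le_max_right _ _).trans (le_max_left _ _)).trans hY
  have g3 := hY1 Y ((le_max_right _ _).trans hY)
  have hM0 : (0 : ℝ) ≤ M := Nat.cast_nonneg M
  have hYζ : (0 : ℝ) < (Y : ℝ) ^ ζ := by linarith
  have hsub : (Icc 1 M).filter (SqB Y ζ ξ k) ⊆ (pr Y ζ ξ).biUnion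
      (fun q => (Icc 1 M).filter (fun n : ℕ => ((q ^ 2 : ℕ) : ℤ) ∣ (n : ℤ) ^ 3 + k)) := by
    intro n hn
    rw [mem_filter] at hn
    obtain ⟨hn1, q, hq, hqn⟩ := hn
    rw [mem_biUnion]
    exact ⟨q, hq, by rw [mem_filter]; exact ⟨hn1, hqn⟩⟩
  have hfew := few_div Y hY2 ζ ξ hζ k hk hkY
  calc (((Icc 1 M).filter (SqB Y ζ ξ k)).card : ℝ) ≤
      ((∑ q ∈ pr Y ζ ξ, ((Icc 1 M).filter
        (fun n : ℕ => ((q ^ 2 : ℕ) : ℤ) ∣ (n : ℤ) ^ 3 + k)).card : ℕ) : ℝ) := by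
        exact_mod_cast (card_le_card hsub).trans card_biUnion_le
    _ ≤ ∑ q ∈ pr Y ζ ξ, (3 * (M * (1 / (q : ℝ) ^ 2) + 1) + if (q : ℤ) ∣ k then M / (Y : ℝ) ^ ζ else 0) := by
        push_cast
        apply sum_le_sum
        intro q hq
        obtain ⟨hq1, hq2, hq3⟩ := pr_mem Y q ζ ξ hY2 hq
        have hq0 : (0 : ℝ) < q := by exact_mod_cast hq1.pos
        by_cases hqk : (q : ℤ) ∣ k
        · rw [if_pos hqk]
          have h5 := cube_count' k q hq1 hqk M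
          push_cast at h5
          have h6 : (M : ℝ) / q ≤ M / (Y : ℝ) ^ ζ := div_le_div_of_nonneg_left hM0 hYζ hq2
          have h7 : (0 : ℝ) ≤ 3 * (M * (1 / (q : ℝ) ^ 2) + 1) := by positivity
          linarith
        · rw [if_neg hqk, add_zero]
          have h5 := cube_count k q hq1 (by
            have : (4 : ℝ) ≤ q := g3.trans hq2
            have : 4 ≤ q := by exact_mod_cast this
            omega) hqk M
          push_cast at h5
          refine h5.trans (le_of_eq ?_)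
          ring
    _ = 3 * (M * ∑ q ∈ pr Y ζ ξ, 1 / (q : ℝ) ^ 2) + 3 * (pr Y ζ ξ).card +
        (((pr Y ζ ξ).filter (fun q : ℕ => (q : ℤ) ∣ k)).card : ℝ) * (M / (Y : ℝ) ^ ζ) := by
        rw [sum_add_distrib, ← mul_sum, sum_add_distrib, ← mul_sum, sum_const, nsmul_eq_mul, mul_one,
          ← sum_filter, sum_const, nsmul_eq_mul]
        ring
    _ ≤ 3 * (M * (2 / (Y : ℝ) ^ ζ)) + 3 * (Y : ℝ) ^ ξ + (1 / ζ) * (M / (Y : ℝ) ^ ζ) := by
        apply add_le_add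
        · apply add_le_add
          · apply mul_le_mul_of_nonneg_left _ (by norm_num)
            exact mul_le_mul_of_nonneg_left g1 hM0
          · exact mul_le_mul_of_nonneg_left g2 (by norm_num)
        · exact mul_le_mul_of_nonneg_right hfew (by positivity)
    _ = _ := by ring

open Classical in
/-- large squares, on average -/
theorem sq_avg (ξ υ : ℝ) (hξ : 0 < ξ) (hυ : υ ≤ 1) : ∃ Y0 : ℕ, ∀ Y : ℕ, Y0 ≤ Y →
    ∀ (M H : ℕ) (t : ℝ), 0 < M → 0 < t →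
    (((Icc (-(H : ℤ)) (H : ℤ)).filter (fun k => (M : ℝ) / t <
      (((Icc 1 M).filter (SqB Y ξ υ k)).card : ℝ))).card : ℝ) ≤
      t * ((2 * H + 1) * (2 / (Y : ℝ) ^ ξ) + (Y : ℝ) ^ υ) := by
  obtain ⟨Y0, HP⟩ := pr_sq ξ υ hξ hυ
  refine ⟨max Y0 2, fun Y hY M H t hM ht => ?_⟩
  obtain ⟨g1, g2⟩ := HP Y ((le_max_left _ _).trans hY)
  have hY2 : 2 ≤ Y := (le_max_right _ _).trans hY
  have hMr : (0 : ℝ) < M := by exact_mod_cast hM
  set A := (Icc (-(H : ℤ)) (H : ℤ)).filter (fun k => (M : ℝ) / t <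
      (((Icc 1 M).filter (SqB Y ξ υ k)).card : ℝ)) with hA
  have h1 : (A.card : ℝ) * (M / t) ≤
      ∑ k ∈ Icc (-(H : ℤ)) (H : ℤ), (((Icc 1 M).filter (SqB Y ξ υ k)).card : ℝ) := by
    calc (A.card : ℝ) * (M / t) = ∑ k ∈ A, (M / t : ℝ) := by rw [sum_const, nsmul_eq_mul]
      _ ≤ ∑ k ∈ A, (((Icc 1 M).filter (SqB Y ξ υ k)).card : ℝ) := by
          apply sum_le_sum
          intro k hk
          rw [hA, mem_filter] at hk
          exact hk.2.le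
      _ ≤ _ := sum_le_sum_of_subset_of_nonneg (filter_subset _ _) (fun _ _ _ => Nat.cast_nonneg _)
  have h2 : ∑ k ∈ Icc (-(H : ℤ)) (H : ℤ), (((Icc 1 M).filter (SqB Y ξ υ k)).card : ℝ) ≤
      M * ((2 * H + 1) * (2 / (Y : ℝ) ^ ξ) + (Y : ℝ) ^ υ) := by
    have h3 : ∑ k ∈ Icc (-(H : ℤ)) (H : ℤ), (((Icc 1 M).filter (SqB Y ξ υ k)).card : ℝ) =
        ∑ n ∈ Icc 1 M, (((Icc (-(H : ℤ)) (H : ℤ)).filter (fun k => SqB Y ξ υ k n)).card : ℝ) := by
      simp_rw [card_filter]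
      push_cast
      rw [sum_comm]
    rw [h3]
    have h4 : ∀ n ∈ Icc 1 M, (((Icc (-(H : ℤ)) (H : ℤ)).filter (fun k => SqB Y ξ υ k n)).card : ℝ) ≤
        (2 * H + 1) * (2 / (Y : ℝ) ^ ξ) + (Y : ℝ) ^ υ := by
      intro n hn
      have hsub : (Icc (-(H : ℤ)) (H : ℤ)).filter (fun k => SqB Y ξ υ k n) ⊆ (pr Y ξ υ).biUnion
          (fun q => (Icc (-(H : ℤ)) (H : ℤ)).filter
            (fun k => ((q ^ 2 : ℕ) : ℤ) ∣ (n : ℤ) ^ 3 + k)) := by
        intro k hk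
        rw [mem_filter] at hk
        obtain ⟨hk1, q, hq, hqn⟩ := hk
        rw [mem_biUnion]
        exact ⟨q, hq, by rw [mem_filter]; exact ⟨hk1, hqn⟩⟩
      have hone : ∀ q : ℕ, 0 < q → (((Icc (-(H : ℤ)) (H : ℤ)).filter
            (fun k => (q : ℤ) ∣ (n : ℤ) ^ 3 + k)).card : ℝ) ≤ (2 * H + 1) / q + 1 := by
        intro q hq
        have h5 := class_count q hq (2 * H + 1) (-((n : ℤ) ^ 3) + (H + 1))
        push_cast at h5
        refine le_trans ?_ h5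
        have : ((Icc (-(H : ℤ)) (H : ℤ)).filter (fun k => (q : ℤ) ∣ (n : ℤ) ^ 3 + k)).card ≤
            ((Icc 1 (2 * H + 1)).filter (fun j : ℕ => (q : ℤ) ∣ (j : ℤ) - (-((n : ℤ) ^ 3) + (H + 1)))).card := by
          apply card_le_card_of_injOn (fun k : ℤ => (k + ((H : ℤ) + 1)).toNat)
          · intro k hk
            rw [mem_coe, mem_filter, mem_Icc] at hk
            obtain ⟨⟨hk1, hk2⟩, hk3⟩ := hk
            rw [mem_coe, mem_filter, mem_Icc]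
            beta_reduce
            refine ⟨⟨by omega, by omega⟩, ?_⟩
            rw [Int.toNat_of_nonneg (by omega)]
            have e : k + ((H : ℤ) + 1) - (-((n : ℤ) ^ 3) + (H + 1)) = (n : ℤ) ^ 3 + k := by ring
            rw [e]
            exact hk3
          · intro a ha b hb hab
            rw [mem_coe, mem_filter, mem_Icc] at ha hb
            simp only at hab
            omega
        exact_mod_cast this
      calc (((Icc (-(H : ℤ)) (H : ℤ)).filter (fun k => SqB Y ξ υ k n)).card : ℝ) ≤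
          ((∑ q ∈ pr Y ξ υ, ((Icc (-(H : ℤ)) (H : ℤ)).filter
            (fun k => ((q ^ 2 : ℕ) : ℤ) ∣ (n : ℤ) ^ 3 + k)).card : ℕ) : ℝ) := by
            exact_mod_cast (card_le_card hsub).trans card_biUnion_le
        _ ≤ ∑ q ∈ pr Y ξ υ, ((2 * H + 1) * (1 / (q : ℝ) ^ 2) + 1) := by
            push_cast
            apply sum_le_sum
            intro q hq
            obtain ⟨hq1, _, _⟩ := pr_mem Y q ξ υ hY2 hq
            have h5 := hone (q ^ 2) (pow_pos hq1.pos 2)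
            push_cast at h5
            refine h5.trans (le_of_eq ?_)
            ring
        _ = (2 * H + 1) * ∑ q ∈ pr Y ξ υ, 1 / (q : ℝ) ^ 2 + (pr Y ξ υ).card := by
            rw [sum_add_distrib, ← mul_sum, sum_const, nsmul_eq_mul, mul_one]
        _ ≤ _ := add_le_add (mul_le_mul_of_nonneg_left g1 (by positivity)) g2
    calc ∑ n ∈ Icc 1 M, (((Icc (-(H : ℤ)) (H : ℤ)).filter (fun k => SqB Y ξ υ k n)).card : ℝ) ≤
        ∑ n ∈ Icc 1 M, ((2 * H + 1) * (2 / (Y : ℝ) ^ ξ) + (Y : ℝ) ^ υ) := sum_le_sum h4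
      _ = _ := by
          rw [sum_const, Nat.card_Icc, nsmul_eq_mul]
          simp
  have h3 := h1.trans h2
  rw [mul_div_assoc', div_le_iff₀ ht] at h3
  have h4 : (A.card : ℝ) * M ≤ (t * ((2 * H + 1) * (2 / (Y : ℝ) ^ ξ) + (Y : ℝ) ^ υ)) * M := by
    calc (A.card : ℝ) * M ≤ _ := h3
      _ = _ := by ring
  exact le_of_mul_le_mul_right h4 hMr

end Pool.Agent.K3h21.MK
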