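import Pool.Agent.K3h21.MK.Eng
import Pool.Agent.K3h21.MK.Sq
import Pool.Agent.Y882.KW.Alm
import Pool.Agent.Y882.GW.Num2

/-! Almost primes `n ^ 3 + k` for all but few `k`: the weighted sieve. -/

set_option autoImplicit false

namespace Pool.Agent.K3h21.MK

open Finset Polynomial Filter
open Pool.Agent.W23.DC
open Pool.Agent.Y882
open Pool.Agent.Y882.PX
open Pool.Agent.Y882.KW
open Pool.Agent.Y882.SI
open Pool.Agent.Y882.GW

open Classical in
/-- the `n ≤ M` at which `|n³ + k| ≥ 2` has at most `r` prime factors, all of them at least `w` -/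
noncomputable def vals (r : ℕ) (k : ℤ) (M : ℕ) (w : ℝ) : Finset ℕ :=
  (Icc 1 M).filter (fun n : ℕ => 2 ≤ ((n : ℤ) ^ 3 + k).natAbs ∧
    ((n : ℤ) ^ 3 + k).natAbs.primeFactorsList.length ≤ r ∧
    ∀ p : ℕ, p.Prime → (p : ℤ) ∣ (n : ℤ) ^ 3 + k → w ≤ p)

open Classical in
theorem vals_mono (r : ℕ) (k : ℤ) (M M' : ℕ) (w w' : ℝ) (hM : M ≤ M') (hw : w' ≤ w) :
    vals r k M w ⊆ vals r k M' w' := by
  intro n hn
  unfold vals at *
  rw [mem_filter, mem_Icc] at *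
  exact ⟨⟨hn.1.1, hn.1.2.trans hM⟩, hn.2.1, hn.2.2.1, fun p hp hd => hw.trans (hn.2.2.2 p hp hd)⟩

open Classical in
theorem small_cubes (k : ℤ) (M : ℕ) :
    ((Icc 1 M).filter (fun n : ℕ => ((n : ℤ) ^ 3 + k).natAbs ≤ 1)).card ≤ 3 := by
  have h : ((Icc 1 M).filter (fun n : ℕ => ((n : ℤ) ^ 3 + k).natAbs ≤ 1)).card ≤
      (Icc (-1 : ℤ) 1).card := by
    apply card_le_card_of_injOn (fun n : ℕ => (n : ℤ) ^ 3 + k)
    · intro n hn
      rw [mem_coe, mem_filter] at hn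
      rw [mem_coe, mem_Icc]
      beta_reduce
      have := hn.2
      constructor <;> omega
    · intro a ha b hb hab
      simp only at hab
      have h1 : (a : ℤ) ^ 3 = (b : ℤ) ^ 3 := by linarith
      have h2 : a ^ 3 = b ^ 3 := by exact_mod_cast h1
      exact Nat.pow_left_injective (by norm_num) h2
  refine h.trans (by simp)

open Classical in
theorem pos_sub (Y : ℕ) (hY : 2 ≤ Y) (ζ υ lam : ℝ) (r : ℕ) (hζυ : ζ ≤ υ) (hυ0 : 0 < υ) (hυ1 : υ ≤ 1)
    (hlam : 0 < lam) (hr : 1 / lam + 1 / υ ≤ r + 1) (k : ℤ) (M : ℕ) (hM : M ^ 3 + k.natAbs ≤ Y) :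
    (posk (X ^ 3) Y ζ υ lam (lam / υ) M k).card ≤
      (vals r k M ((Y : ℝ) ^ ζ)).card + ((Icc 1 M).filter (SqB Y ζ υ k)).card + 3 := by
  have hsub : posk (X ^ 3) Y ζ υ lam (lam / υ) M k ⊆
      (vals r k M ((Y : ℝ) ^ ζ) ∪ (Icc 1 M).filter (SqB Y ζ υ k)) ∪
        (Icc 1 M).filter (fun n : ℕ => ((n : ℤ) ^ 3 + k).natAbs ≤ 1) := by
    intro n hn
    unfold posk at hn
    rw [mem_filter] at hn
    obtain ⟨hn1, hn2⟩ := hn
    rw [eval_pow, eval_X] at hn2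
    rw [mem_union, mem_union]
    by_cases h1 : ((n : ℤ) ^ 3 + k).natAbs ≤ 1
    · right
      rw [mem_filter]
      exact ⟨hn1, h1⟩
    left
    by_cases h2 : SqB Y ζ υ k n
    · right
      rw [mem_filter]
      exact ⟨hn1, h2⟩
    left
    push Not at h1
    have hnM := (mem_Icc.1 hn1).2
    have hle : ((n : ℤ) ^ 3 + k).natAbs ≤ Y := by
      refine (Int.natAbs_add_le _ _).trans ?_
      rw [Int.natAbs_pow, Int.natAbs_natCast]
      exact (Nat.add_le_add_right (Nat.pow_le_pow_left hnM 3) _).trans hM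
    obtain ⟨h3, h4⟩ := almost Y hY ζ υ lam 1 r hζυ hυ0 hυ1 hlam hr ((n : ℤ) ^ 3 + k).natAbs
      (by omega) (by
        rw [Real.rpow_one]
        exact_mod_cast hle) hn2 (by
        intro q hq hd
        exact h2 ⟨q, hq, Int.natCast_dvd.2 hd⟩)
    unfold vals
    rw [mem_filter]
    exact ⟨hn1, by omega, h3, fun p hp hd => h4 p hp (Int.natCast_dvd.1 hd)⟩
  calc (posk (X ^ 3) Y ζ υ lam (lam / υ) M k).card ≤ _ := card_le_card hsub
    _ ≤ _ := card_union_le _ _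
    _ ≤ _ := add_le_add (card_union_le _ _) (small_cubes k M)

theorem exJ' (Z : ℕ) (hZ : 2 ≤ Z) : ∃ J : ℕ, Z < 2 ^ 2 ^ J ∧ (2 : ℝ) ^ J ≤ 3 * Real.log Z := by
  refine ⟨Nat.log 2 (Nat.log 2 Z) + 1, ?_, ?_⟩
  · have h1 : Z < 2 ^ (Nat.log 2 Z + 1) := Nat.lt_pow_succ_log_self (by norm_num) Z
    have h2 : Nat.log 2 Z < 2 ^ (Nat.log 2 (Nat.log 2 Z) + 1) := Nat.lt_pow_succ_log_self (by norm_num) _
    exact h1.trans_le (Nat.pow_le_pow_right (by norm_num) h2)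
  · have h0 : Nat.log 2 Z ≠ 0 := by
      have : 1 ≤ Nat.log 2 Z := Nat.log_pos (by norm_num) hZ
      omega
    have h1 : 2 ^ Nat.log 2 (Nat.log 2 Z) ≤ Nat.log 2 Z := Nat.pow_log_le_self 2 h0
    have h2 : 2 ^ Nat.log 2 Z ≤ Z := Nat.pow_log_le_self 2 (by omega)
    have h3 : (Nat.log 2 Z : ℝ) * Real.log 2 ≤ Real.log Z := by
      have : ((2 : ℝ) ^ Nat.log 2 Z) ≤ Z := by exact_mod_cast h2
      have h4 := Real.log_le_log (by positivity) this
      rwa [Real.log_pow] at h4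
    have h5 := Real.log_two_gt_d9
    have h6 : ((2 : ℝ) ^ Nat.log 2 (Nat.log 2 Z)) ≤ Nat.log 2 Z := by exact_mod_cast h1
    have h7 : (0 : ℝ) ≤ (Nat.log 2 Z : ℝ) := Nat.cast_nonneg _
    rw [pow_succ]
    nlinarith

theorem ro3_pred (k : ℤ) (p : ℕ) (hp : p.Prime) : ro (X ^ 3 : ℤ[X]) k p + 1 ≤ p := by
  rw [ro3]
  by_contra hcon
  push Not at hcon
  have h1 : ((range p).filter (fun n : ℕ => (p : ℤ) ∣ (n : ℤ) ^ 3 + k)) = range p := by
    apply eq_of_subset_of_card_le (filter_subset _ _)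
    rw [card_range]
    omega
  have h0 : (0 : ℕ) ∈ (range p).filter (fun n : ℕ => (p : ℤ) ∣ (n : ℤ) ^ 3 + k) := by
    rw [h1, mem_range]
    exact hp.pos
  have h2 : (1 : ℕ) ∈ (range p).filter (fun n : ℕ => (p : ℤ) ∣ (n : ℤ) ^ 3 + k) := by
    rw [h1, mem_range]
    exact hp.one_lt
  rw [mem_filter] at h0 h2
  have h3 := dvd_sub h2.2 h0.2
  push_cast at h3
  have e : (1 : ℤ) + k - (0 + k) = 1 := by ring
  norm_num at h3
  have h4 := Int.eq_one_of_dvd_one (by positivity) h3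
  have := hp.one_lt
  omega

theorem loc3_low : ∃ c : ℝ, 0 < c ∧ ∀ (k : ℤ) (Z : ℕ), 2 ≤ Z → c / Real.log Z ^ 6 ≤ loc (X ^ 3) k Z := by
  obtain ⟨c, hc, H⟩ := V_low 3
  refine ⟨c / 3 ^ 6, by positivity, fun k Z hZ => ?_⟩
  obtain ⟨J, hJ1, hJ2⟩ := exJ' Z hZ
  have hl : 0 < Real.log Z := Real.log_pos (by exact_mod_cast (by omega : 1 < Z))
  have h := H J ((Icc 1 Z).filter Nat.Prime) (fun p => (ro (X ^ 3 : ℤ[X]) k p : ℝ)) (by
    intro p hp
    rw [mem_filter, mem_Icc] at hp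
    exact ⟨hp.2, hp.1.2.trans_lt hJ1⟩) (by
    intro p hp
    rw [mem_filter] at hp
    exact_mod_cast ro3_le k p hp.2) (by
    intro p hp
    rw [mem_filter] at hp
    have h1 := ro3_pred k p hp.2
    have h2 : ((ro (X ^ 3 : ℤ[X]) k p + 1 : ℕ) : ℝ) ≤ p := by exact_mod_cast h1
    push_cast at h2
    linarith)
  unfold loc
  refine le_trans ?_ h
  have h3 : 1 / (3 * Real.log Z) ≤ 1 / (2 : ℝ) ^ J := one_div_le_one_div_of_le (by positivity) hJ2
  calc c / 3 ^ 6 / Real.log Z ^ 6 = c * (1 / (3 * Real.log Z)) ^ 6 := by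
        field_simp
    _ ≤ c * (1 / (2 : ℝ) ^ J) ^ 6 := by
        apply mul_le_mul_of_nonneg_left _ hc.le
        exact pow_le_pow_left₀ (by positivity) h3 6
    _ = _ := by norm_num

open Classical in
/-- **Almost primes `n ^ 3 + k`, all but few `k`.** -/
theorem cube_main (r : ℕ) (τ ζ υ lam h θ ε : ℝ) (hζ : 0 < ζ) (h2 : 2 * ζ < τ)
    (h4 : τ ≤ 4 * ζ) (hτ : τ < 1) (hζυ : ζ ≤ υ) (hυτ : υ < τ) (hυ2 : υ ≤ 1 / 2) (hlam : 0 < lam)
    (hJ0 : ∫ x in ζ..υ, (lam - lam / υ * x) / (τ - x) / x < Real.log (τ / ζ - 1) / τ)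
    (hr : 1 / lam + 1 / υ ≤ r + 1) (hh : 0 < h) (hh1 : h ≤ 1) (hθ : 0 < θ) (hθ1 : θ ≤ 1) (hε : 0 < ε) :
    ∃ δ : ℝ, 0 < δ ∧ ∃ Y0 : ℕ, ∀ Y : ℕ, Y0 ≤ Y → ∀ H M : ℕ, M ^ 3 + H ≤ Y → (H : ℝ) ≤ (Y : ℝ) ^ h →
      (Y : ℝ) ^ θ ≤ M →
      (((Icc (-(H : ℤ)) (H : ℤ)).filter (fun k => ((vals r k M ((Y : ℝ) ^ ζ)).card : ℝ) <
        δ * M * loc (X ^ 3) k M)).card : ℝ) ≤
      (Y : ℝ) ^ (max (max (2 * h / 3) υ) (max (2 * τ - θ) (h - θ)) + ε) := by
  set E : ℝ := max (max (2 * h / 3) υ) (max (2 * τ - θ) (h - θ)) with hE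
  have hE1 : 2 * h / 3 ≤ E := (le_max_left _ _).trans (le_max_left _ _)
  have hE2 : υ ≤ E := (le_max_right _ _).trans (le_max_left _ _)
  have hE3 : 2 * τ - θ ≤ E := (le_max_left _ _).trans (le_max_right _ _)
  have hE4 : h - θ ≤ E := (le_max_right _ _).trans (le_max_right _ _)
  have hυ0 : 0 < υ := by linarith
  have hE0 : 0 < E := by linarith
  obtain ⟨δ, hδ, Y1, HW⟩ := engW 3 θ τ ζ υ lam (lam / υ) h (ε / 2) hθ hζ h2 h4 hτ hζυ hυτ hυ2 hlam.le
    (by positivity) (by rw [div_mul_cancel₀ _ hυ0.ne']) hJ0 hh hh1 (by linarith)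
  obtain ⟨e, he0, he1, he2, he3⟩ : ∃ e : ℝ, 0 < e ∧ e ≤ ε / 4 ∧ e ≤ ζ ∧ e ≤ θ / 2 :=
    ⟨min (min (ε / 4) ζ) (θ / 2), lt_min (lt_min (by linarith) hζ) (by linarith),
      (min_le_left _ _).trans (min_le_left _ _), (min_le_left _ _).trans (min_le_right _ _),
      min_le_right _ _⟩
  set ξ : ℝ := θ - e with hξ
  have hξ0 : 0 < ξ := by linarith
  obtain ⟨Y2, HP⟩ := sq_point ζ ξ hζ (by linarith)
  obtain ⟨Y3, HA⟩ := sq_avg ξ υ hξ0 (by linarith)
  obtain ⟨c, hc, HL⟩ := loc3_low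
  set B : ℝ := 13 + 1 / ζ with hB
  have hB0 : 0 < B := by positivity
  have ev1 : ∀ᶠ Y : ℕ in atTop, B * (Real.log Y) ^ 6 * 2 / (δ * c) ≤ (Y : ℝ) ^ e := by
    have h1 : Tendsto (fun x : ℝ => Real.log x ^ (6 : ℝ) / x ^ e) atTop (nhds 0) := by
      have := isLittleO_log_rpow_rpow_atTop (6 : ℝ) he0
      exact this.tendsto_div_nhds_zero
    have h2 := h1.eventually_le_const (show (0 : ℝ) < δ * c / (2 * B) by positivity)
    have h3 := tendsto_natCast_atTop_atTop.eventually (h2.and (eventually_gt_atTop (0 : ℝ)))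
    filter_upwards [h3] with X hX
    obtain ⟨h4, h5⟩ := hX
    have h6 : (0 : ℝ) < (X : ℝ) ^ e := by positivity
    rw [div_le_div_iff₀ h6 (by positivity)] at h4
    have h7 : Real.log (X : ℝ) ^ (6 : ℝ) = Real.log (X : ℝ) ^ (6 : ℕ) := by
      rw [← Real.rpow_natCast]
      norm_num
    rw [h7] at h4
    rw [div_le_iff₀ (by positivity)]
    linarith
  have ev2 : ∀ᶠ Y : ℕ in atTop, (11 : ℝ) ≤ (Y : ℝ) ^ (ε / 2) :=
    tendsto_natCast_atTop_atTop.eventually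
      ((tendsto_rpow_atTop (by linarith)).eventually_ge_atTop _)
  have ev3 : ∀ᶠ Y : ℕ in atTop, (2 : ℝ) ≤ (Y : ℝ) ^ θ :=
    tendsto_natCast_atTop_atTop.eventually
      ((tendsto_rpow_atTop hθ).eventually_ge_atTop _)
  obtain ⟨Y4, hY4⟩ := eventually_atTop.1 (ev1.and (ev2.and (ev3.and (eventually_ge_atTop 3))))
  refine ⟨δ / 2, by positivity, max (max Y1 Y2) (max Y3 Y4), ?_⟩
  intro Y hY H M hMH hH hM
  have g1 : Y1 ≤ Y := ((le_max_left _ _).trans (le_max_left _ _)).trans hY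
  have g2 : Y2 ≤ Y := ((le_max_right _ _).trans (le_max_left _ _)).trans hY
  have g3 : Y3 ≤ Y := ((le_max_left _ _).trans (le_max_right _ _)).trans hY
  obtain ⟨e1, e2, e3, e4⟩ := hY4 Y (((le_max_right _ _).trans (le_max_right _ _)).trans hY)
  have hYr : (3 : ℝ) ≤ Y := by exact_mod_cast e4
  have hY0 : (0 : ℝ) < Y := by linarith
  have hY1r : (1 : ℝ) ≤ Y := by linarith
  have hM2 : (2 : ℝ) ≤ M := e3.trans hM
  have hM2' : 2 ≤ M := by exact_mod_cast hM2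
  have hM0 : (0 : ℝ) < M := by linarith
  have hMY : M ≤ Y := by
    have : M ≤ M ^ 3 := Nat.le_self_pow (by norm_num) M
    omega
  have hMYr : (M : ℝ) ≤ Y := by exact_mod_cast hMY
  have hlM : 0 < Real.log M := Real.log_pos (by linarith)
  have hlY : 0 < Real.log Y := Real.log_pos (by linarith)
  have hlMY : Real.log M ≤ Real.log Y := Real.log_le_log hM0 hMYr
  have hYe0 : (0 : ℝ) < (Y : ℝ) ^ e := by positivity
  -- the exceptional sets
  set A1 := (Icc (-(H : ℤ)) (H : ℤ)).filter (fun k => ((posk (X ^ 3) Y ζ υ lam (lam / υ) M k).card : ℝ) <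
          δ * M * loc (X ^ 3) k M) with hA1
  set A2 := (Icc (-(H : ℤ)) (H : ℤ)).filter (fun k => (M : ℝ) / (Y : ℝ) ^ e <
      (((Icc 1 M).filter (SqB Y ξ υ k)).card : ℝ)) with hA2
  have c1 := HW Y g1 (X ^ 3) H M M (by rw [natDegree_X_pow]; norm_num) (by rw [kf3]) hH hM hM
  have c2 := HA Y g3 M H ((Y : ℝ) ^ e) (by omega) hYe0
  have hsub : (Icc (-(H : ℤ)) (H : ℤ)).filter (fun k => ((vals r k M ((Y : ℝ) ^ ζ)).card : ℝ) <
        δ / 2 * M * loc (X ^ 3) k M) ⊆ (A1 ∪ A2) ∪ {0} := by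
    intro k hk
    rw [mem_filter] at hk
    obtain ⟨hk1, hk2⟩ := hk
    by_contra hcon
    rw [mem_union, mem_union, mem_singleton] at hcon
    push Not at hcon
    obtain ⟨⟨hn1, hn2⟩, hn3⟩ := hcon
    have d1 : δ * M * loc (X ^ 3) k M ≤ ((posk (X ^ 3) Y ζ υ lam (lam / υ) M k).card : ℝ) := by
      by_contra h'
      push Not at h'
      exact hn1 (by rw [hA1, mem_filter]; exact ⟨hk1, h'⟩)
    have d2 : (((Icc 1 M).filter (SqB Y ξ υ k)).card : ℝ) ≤ (M : ℝ) / (Y : ℝ) ^ e := by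
      by_contra h'
      push Not at h'
      exact hn2 (by rw [hA2, mem_filter]; exact ⟨hk1, h'⟩)
    have hkH : k.natAbs ≤ H := by
      rw [mem_Icc] at hk1
      omega
    have d3 := HP Y g2 M k hn3 (by omega)
    have d4 := pos_sub Y (by omega) ζ υ lam r hζυ hυ0 (by linarith) hlam hr k M (by omega)
    have d5 : (((Icc 1 M).filter (SqB Y ζ υ k)).card : ℝ) ≤
        (((Icc 1 M).filter (SqB Y ζ ξ k)).card : ℝ) + (((Icc 1 M).filter (SqB Y ξ υ k)).card : ℝ) := by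
      have : (Icc 1 M).filter (SqB Y ζ υ k) ⊆ (Icc 1 M).filter (SqB Y ζ ξ k) ∪ (Icc 1 M).filter (SqB Y ξ υ k) := by
        intro n hn
        rw [mem_filter] at hn
        obtain ⟨hn1, q, hq, hqd⟩ := hn
        rw [mem_union, mem_filter, mem_filter]
        unfold pr at hq
        rw [mem_filter] at hq
        obtain ⟨q1, q2, q3, q4⟩ := hq
        rcases lt_or_ge (tt Y q) ξ with hq5 | hq5
        · left
          refine ⟨hn1, q, ?_, hqd⟩
          unfold pr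
          rw [mem_filter]
          exact ⟨q1, q2, q3, hq5⟩
        · right
          refine ⟨hn1, q, ?_, hqd⟩
          unfold pr
          rw [mem_filter]
          exact ⟨q1, q2, hq5, q4⟩
      exact_mod_cast (card_le_card this).trans (card_union_le _ _)
    have d4' : ((posk (X ^ 3) Y ζ υ lam (lam / υ) M k).card : ℝ) ≤
        ((vals r k M ((Y : ℝ) ^ ζ)).card : ℝ) + (((Icc 1 M).filter (SqB Y ζ υ k)).card : ℝ) + 3 := by
      exact_mod_cast d4
    -- all error terms are at most `B M / Y ^ e`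
    have f1 : (6 + 1 / ζ) / (Y : ℝ) ^ ζ ≤ (6 + 1 / ζ) / (Y : ℝ) ^ e := by
      apply div_le_div_of_nonneg_left (by positivity) hYe0
      exact Real.rpow_le_rpow_of_exponent_le hY1r he2
    have f2 : (Y : ℝ) ^ ξ ≤ M / (Y : ℝ) ^ e := by
      rw [hξ, Real.rpow_sub hY0]
      exact div_le_div_of_nonneg_right hM hYe0.le
    have f3 : (1 : ℝ) ≤ M / (Y : ℝ) ^ e := by
      rw [le_div_iff₀ hYe0, one_mul]
      refine le_trans (Real.rpow_le_rpow_of_exponent_le hY1r (by linarith)) hM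
    have f4 : ((posk (X ^ 3) Y ζ υ lam (lam / υ) M k).card : ℝ) ≤
        ((vals r k M ((Y : ℝ) ^ ζ)).card : ℝ) + B * (M / (Y : ℝ) ^ e) := by
      have f5 : (M : ℝ) * ((6 + 1 / ζ) / (Y : ℝ) ^ ζ) ≤ (6 + 1 / ζ) * (M / (Y : ℝ) ^ e) := by
        calc (M : ℝ) * ((6 + 1 / ζ) / (Y : ℝ) ^ ζ) ≤ M * ((6 + 1 / ζ) / (Y : ℝ) ^ e) :=
              mul_le_mul_of_nonneg_left f1 hM0.le
          _ = _ := by ring
      have f5' : B * (M / (Y : ℝ) ^ e) = (6 + 1 / ζ) * (M / (Y : ℝ) ^ e) + 7 * (M / (Y : ℝ) ^ e) := by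
        rw [hB]
        ring
      rw [f5']
      linarith
    -- and this is at most half of the main term
    have f6 : B * (M / (Y : ℝ) ^ e) ≤ δ / 2 * M * loc (X ^ 3) k M := by
      have f7 := HL k M hM2'
      have f8 : c / Real.log Y ^ 6 ≤ c / Real.log M ^ 6 := by
        apply div_le_div_of_nonneg_left hc.le (by positivity)
        exact pow_le_pow_left₀ hlM.le hlMY 6
      have f9 : B / (Y : ℝ) ^ e ≤ δ / 2 * (c / Real.log Y ^ 6) := by
        rw [div_le_iff₀ hYe0]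
        rw [div_le_iff₀ (by positivity)] at e1
        have : B = δ / 2 * (c / Real.log Y ^ 6) * (B * (Real.log Y) ^ 6 * 2 / (δ * c)) := by
          field_simp
        have e1' : B * (Real.log Y) ^ 6 * 2 / (δ * c) ≤ (Y : ℝ) ^ e := by
          rw [div_le_iff₀ (by positivity)]
          exact e1
        calc B = δ / 2 * (c / Real.log Y ^ 6) * (B * (Real.log Y) ^ 6 * 2 / (δ * c)) := this
          _ ≤ _ := mul_le_mul_of_nonneg_left e1' (by positivity)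
      calc B * (M / (Y : ℝ) ^ e) = M * (B / (Y : ℝ) ^ e) := by ring
        _ ≤ M * (δ / 2 * (c / Real.log Y ^ 6)) := mul_le_mul_of_nonneg_left f9 hM0.le
        _ ≤ M * (δ / 2 * loc (X ^ 3) k M) := by
            apply mul_le_mul_of_nonneg_left _ hM0.le
            exact mul_le_mul_of_nonneg_left (f8.trans f7) (by positivity)
        _ = _ := by ring
    linarith
  -- the size of the exceptional set
  have hH0 : (0 : ℝ) ≤ H := Nat.cast_nonneg H
  have hYε : (0 : ℝ) < (Y : ℝ) ^ (E + ε / 2) := by positivity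
  have c1' : (A1.card : ℝ) ≤ 3 * (Y : ℝ) ^ (E + ε / 2) := by
    refine c1.trans ?_
    have i1 : (Y : ℝ) ^ (max (2 * h / 3) υ + ε / 2) ≤ (Y : ℝ) ^ (E + ε / 2) := by
      apply Real.rpow_le_rpow_of_exponent_le hY1r
      have : max (2 * h / 3) υ ≤ E := le_max_left _ _
      linarith
    have i2 : ((H : ℝ) + (Y : ℝ) ^ (2 * τ)) / M ≤ 2 * (Y : ℝ) ^ E := by
      have hYθ : (0 : ℝ) < (Y : ℝ) ^ θ := by positivity
      calc ((H : ℝ) + (Y : ℝ) ^ (2 * τ)) / M ≤ ((Y : ℝ) ^ h + (Y : ℝ) ^ (2 * τ)) / (Y : ℝ) ^ θ := by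
            apply div_le_div₀ (by positivity) (by linarith) hYθ hM
        _ = (Y : ℝ) ^ (h - θ) + (Y : ℝ) ^ (2 * τ - θ) := by
            rw [add_div, ← Real.rpow_sub hY0, ← Real.rpow_sub hY0]
        _ ≤ (Y : ℝ) ^ E + (Y : ℝ) ^ E := add_le_add (Real.rpow_le_rpow_of_exponent_le hY1r hE4)
            (Real.rpow_le_rpow_of_exponent_le hY1r hE3)
        _ = _ := by ring
    calc _ ≤ (Y : ℝ) ^ (E + ε / 2) + 2 * (Y : ℝ) ^ E * (Y : ℝ) ^ (ε / 2) :=
          add_le_add i1 (mul_le_mul_of_nonneg_right i2 (by positivity))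
      _ = _ := by
          rw [mul_assoc, ← Real.rpow_add hY0]
          ring
  have c2' : (A2.card : ℝ) ≤ 7 * (Y : ℝ) ^ (E + ε / 2) := by
    refine c2.trans ?_
    have j1 : (2 * (H : ℝ) + 1) ≤ 3 * (Y : ℝ) ^ h := by
      have : (1 : ℝ) ≤ (Y : ℝ) ^ h := Real.one_le_rpow hY1r hh.le
      linarith
    have j2 : (2 * (H : ℝ) + 1) * (2 / (Y : ℝ) ^ ξ) ≤ 6 * (Y : ℝ) ^ (E + e) := by
      calc (2 * (H : ℝ) + 1) * (2 / (Y : ℝ) ^ ξ) ≤ 3 * (Y : ℝ) ^ h * (2 / (Y : ℝ) ^ ξ) :=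
            mul_le_mul_of_nonneg_right j1 (by positivity)
        _ = 6 * (Y : ℝ) ^ (h - ξ) := by
            rw [Real.rpow_sub hY0 h ξ]
            ring
        _ ≤ _ := by
            apply mul_le_mul_of_nonneg_left _ (by norm_num)
            exact Real.rpow_le_rpow_of_exponent_le hY1r (by linarith)
    have j3 : (Y : ℝ) ^ υ ≤ (Y : ℝ) ^ (E + e) := Real.rpow_le_rpow_of_exponent_le hY1r (by linarith)
    calc (Y : ℝ) ^ e * ((2 * (H : ℝ) + 1) * (2 / (Y : ℝ) ^ ξ) + (Y : ℝ) ^ υ) ≤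
        (Y : ℝ) ^ e * (7 * (Y : ℝ) ^ (E + e)) := by
          apply mul_le_mul_of_nonneg_left _ hYe0.le
          linarith
      _ = 7 * (Y : ℝ) ^ (E + (e + e)) := by
          rw [mul_left_comm, ← Real.rpow_add hY0]
          congr 2
          ring
      _ ≤ _ := by
          apply mul_le_mul_of_nonneg_left _ (by norm_num)
          exact Real.rpow_le_rpow_of_exponent_le hY1r (by linarith)
  have h1Y : (1 : ℝ) ≤ (Y : ℝ) ^ (E + ε / 2) := Real.one_le_rpow hY1r (by linarith)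
  calc (((Icc (-(H : ℤ)) (H : ℤ)).filter (fun k => ((vals r k M ((Y : ℝ) ^ ζ)).card : ℝ) <
        δ / 2 * M * loc (X ^ 3) k M)).card : ℝ) ≤ (((A1 ∪ A2) ∪ {0} : Finset ℤ).card : ℝ) := by
        exact_mod_cast card_le_card hsub
    _ ≤ A1.card + A2.card + 1 := by
        have := (card_union_le (A1 ∪ A2) ({0} : Finset ℤ)).trans
          (Nat.add_le_add_right (card_union_le A1 A2) _)
        rw [card_singleton] at this
        exact_mod_cast this
    _ ≤ 3 * (Y : ℝ) ^ (E + ε / 2) + 7 * (Y : ℝ) ^ (E + ε / 2) + (Y : ℝ) ^ (E + ε / 2) :=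
        add_le_add (add_le_add c1' c2') h1Y
    _ = 11 * (Y : ℝ) ^ (E + ε / 2) := by ring
    _ ≤ (Y : ℝ) ^ (ε / 2) * (Y : ℝ) ^ (E + ε / 2) := mul_le_mul_of_nonneg_right e2 hYε.le
    _ = _ := by
        rw [← Real.rpow_add hY0]
        congr 1
        ring

end Pool.Agent.K3h21.MK
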