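import Pool.Agent.K3h21.MK.Cube

/-! Almost primes `n ^ 3 + k` for all but few `k`, uniformly in the length. -/

set_option autoImplicit false

namespace Pool.Agent.K3h21.MK

open Finset Polynomial Filter
open Pool.Agent.W23.DC
open Pool.Agent.Y882
open Pool.Agent.Y882.PX

open Classical in
theorem piece (r : ℕ) (τ ζ υ lam : ℝ) (hζ : 0 < ζ) (h2 : 2 * ζ < τ)
    (h4 : τ ≤ 4 * ζ) (hτ : τ < 1) (hζυ : ζ ≤ υ) (hυτ : υ < τ) (hυ2 : υ ≤ 1 / 2) (hlam : 0 < lam)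
    (hJ0 : ∫ x in ζ..υ, (lam - lam / υ * x) / (τ - x) / x < Real.log (τ / ζ - 1) / τ)
    (hr : 1 / lam + 1 / υ ≤ r + 1) (u1 u2 w e : ℝ) (hu1 : 0 < u1) (hu : u1 ≤ u2)
    (hw : w = max 1 (3 * u2)) (he : 0 < e) :
    ∃ δ : ℝ, 0 < δ ∧ ∃ K0 : ℕ, ∀ K : ℕ, K0 ≤ K →
      (((Icc (-(K : ℤ)) (K : ℤ)).filter (fun k => ∃ x : ℕ, (K : ℝ) ^ u1 ≤ x ∧ (x : ℝ) ≤ (K : ℝ) ^ u2 ∧
        ((vals r k x ((K : ℝ) ^ ζ)).card : ℝ) < δ * x * loc (X ^ 3) k x)).card : ℝ) ≤
      (K : ℝ) ^ (max (max (2 / 3) (υ * w)) (max (2 * τ * w - u1) (1 - u1)) + e) := by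
  have hw1 : 1 ≤ w := by rw [hw]; exact le_max_left _ _
  have hw3 : 3 * u2 ≤ w := by rw [hw]; exact le_max_right _ _
  have hw0 : 0 < w := by linarith
  have hu2 : 0 < u2 := by linarith
  have hu1w : u1 / w ≤ 1 / 3 := by
    rw [div_le_iff₀ hw0]
    linarith
  have hu1w0 : 0 < u1 / w := by positivity
  obtain ⟨e1, he1, he1a, he1b⟩ : ∃ e1 : ℝ, 0 < e1 ∧ e1 * w ≤ e / 4 ∧ e1 ≤ u1 / w / 2 :=
    ⟨min (e / (4 * w)) (u1 / w / 2), lt_min (by positivity) (by positivity), by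
      calc min (e / (4 * w)) (u1 / w / 2) * w ≤ e / (4 * w) * w :=
            mul_le_mul_of_nonneg_right (min_le_left _ _) hw0.le
        _ = e / 4 := by field_simp, min_le_right _ _⟩
  have hθ0 : 0 < u1 / w - e1 := by linarith
  have hθ1 : u1 / w - e1 ≤ 1 := by linarith
  obtain ⟨δ, hδ, Y0, HM⟩ := cube_main r τ ζ υ lam (1 / w) (u1 / w - e1) (e / (4 * w)) hζ h2 h4 hτ hζυ
    hυτ hυ2 hlam hJ0 hr (by positivity) (by rw [div_le_iff₀ hw0]; linarith) hθ0 hθ1 (by positivity)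
  set E : ℝ := max (max (2 * (1 / w) / 3) υ) (max (2 * τ - (u1 / w - e1)) (1 / w - (u1 / w - e1))) +
    e / (4 * w) with hE
  set E' : ℝ := max (max (2 / 3) (υ * w)) (max (2 * τ * w - u1) (1 - u1)) with hE'
  have hEw : E * w ≤ E' + e / 2 := by
    have a1 : 2 / 3 ≤ E' := (le_max_left _ _).trans (le_max_left _ _)
    have a2 : υ * w ≤ E' := (le_max_right _ _).trans (le_max_left _ _)
    have a3 : 2 * τ * w - u1 ≤ E' := (le_max_left _ _).trans (le_max_right _ _)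
    have a4 : 1 - u1 ≤ E' := (le_max_right _ _).trans (le_max_right _ _)
    have b1 : e / (4 * w) * w = e / 4 := by field_simp
    have b2 : (u1 / w) * w = u1 := by field_simp
    have b3 : (1 / w) * w = 1 := by field_simp
    have key : max (max (2 * (1 / w) / 3) υ) (max (2 * τ - (u1 / w - e1)) (1 / w - (u1 / w - e1))) * w ≤
        E' + e / 4 := by
      rw [max_mul_of_nonneg _ _ hw0.le, max_mul_of_nonneg _ _ hw0.le, max_mul_of_nonneg _ _ hw0.le]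
      refine max_le (max_le ?_ ?_) (max_le ?_ ?_)
      · calc 2 * (1 / w) / 3 * w = 2 / 3 * ((1 / w) * w) := by ring
          _ ≤ _ := by rw [b3]; linarith
      · linarith
      · calc (2 * τ - (u1 / w - e1)) * w = 2 * τ * w - (u1 / w) * w + e1 * w := by ring
          _ ≤ _ := by rw [b2]; linarith
      · calc (1 / w - (u1 / w - e1)) * w = (1 / w) * w - (u1 / w) * w + e1 * w := by ring
          _ ≤ _ := by rw [b2, b3]; linarith
    rw [hE, add_mul, b1]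
    linarith
  have hE0 : 0 ≤ E := by
    have : υ ≤ max (max (2 * (1 / w) / 3) υ) (max (2 * τ - (u1 / w - e1)) (1 / w - (u1 / w - e1))) :=
      (le_max_right _ _).trans (le_max_left _ _)
    have h' : 0 < e / (4 * w) := by positivity
    linarith
  have ev1 : ∀ᶠ K : ℕ in atTop, (3 : ℝ) ^ E ≤ (K : ℝ) ^ (e / 4) :=
    tendsto_natCast_atTop_atTop.eventually
      ((tendsto_rpow_atTop (by linarith)).eventually_ge_atTop _)
  have ev2 : ∀ᶠ K : ℕ in atTop, 2 * u2 * Real.log K + 1 ≤ (K : ℝ) ^ (e / 4) := by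
    have h1 : Tendsto (fun x : ℝ => Real.log x / x ^ (e / 4)) atTop (nhds 0) :=
      (isLittleO_log_rpow_atTop (by linarith : 0 < e / 4)).tendsto_div_nhds_zero
    have h3 := h1.eventually_le_const (show (0 : ℝ) < 1 / (4 * u2) by positivity)
    have h4 : ∀ᶠ x : ℝ in atTop, (2 : ℝ) ≤ x ^ (e / 4) :=
      (tendsto_rpow_atTop (by linarith)).eventually_ge_atTop _
    have h5 := tendsto_natCast_atTop_atTop.eventually ((h3.and h4).and (eventually_gt_atTop (0 : ℝ)))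
    filter_upwards [h5] with X hX
    obtain ⟨⟨h6, h7⟩, h8⟩ := hX
    have h9 : (0 : ℝ) < (X : ℝ) ^ (e / 4) := by positivity
    rw [div_le_div_iff₀ h9 (by positivity)] at h6
    linarith
  have ev3 : ∀ᶠ K : ℕ in atTop, (3 : ℝ) ^ (u1 / w - e1) ≤ (K : ℝ) ^ (e1 * w) :=
    tendsto_natCast_atTop_atTop.eventually
      ((tendsto_rpow_atTop (by positivity)).eventually_ge_atTop _)
  obtain ⟨K1, hK1⟩ := eventually_atTop.1 (ev1.and (ev2.and (ev3.and (eventually_ge_atTop 3))))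
  refine ⟨δ / 2, by positivity, max K1 Y0, ?_⟩
  intro K hK
  obtain ⟨e2, e3, e4, e5⟩ := hK1 K ((le_max_left _ _).trans hK)
  have hKY0 : Y0 ≤ K := (le_max_right _ _).trans hK
  have hKr : (3 : ℝ) ≤ K := by exact_mod_cast e5
  have hK0 : (0 : ℝ) < K := by linarith
  have hK1r : (1 : ℝ) ≤ K := by linarith
  obtain ⟨Y, hY⟩ : ∃ Y : ℕ, Y = ⌈2 * (K : ℝ) ^ w⌉₊ := ⟨_, rfl⟩
  have hKw1 : (1 : ℝ) ≤ (K : ℝ) ^ w := Real.one_le_rpow hK1r hw0.le
  have hY1 : 2 * (K : ℝ) ^ w ≤ Y := by rw [hY]; exact Nat.le_ceil _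
  have hY2 : (Y : ℝ) ≤ 3 * (K : ℝ) ^ w := by
    have := Nat.ceil_lt_add_one (show (0 : ℝ) ≤ 2 * (K : ℝ) ^ w by positivity)
    rw [← hY] at this
    linarith
  have hKKw : (K : ℝ) ≤ (K : ℝ) ^ w := by
    calc (K : ℝ) = (K : ℝ) ^ (1 : ℝ) := (Real.rpow_one _).symm
      _ ≤ _ := Real.rpow_le_rpow_of_exponent_le hK1r hw1
  have hKY : (K : ℝ) ≤ Y := by linarith
  have hKYn : K ≤ Y := by exact_mod_cast hKY
  have hYpos : (0 : ℝ) < Y := by linarith
  have hHY : (K : ℝ) ≤ (Y : ℝ) ^ (1 / w) := by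
    calc (K : ℝ) = ((K : ℝ) ^ w) ^ (1 / w) := by
          rw [← Real.rpow_mul hK0.le, mul_one_div, div_self hw0.ne', Real.rpow_one]
      _ ≤ _ := Real.rpow_le_rpow (by positivity) (by linarith) (by positivity)
  have hYθ : (Y : ℝ) ^ (u1 / w - e1) ≤ (K : ℝ) ^ u1 := by
    calc (Y : ℝ) ^ (u1 / w - e1) ≤ (3 * (K : ℝ) ^ w) ^ (u1 / w - e1) :=
          Real.rpow_le_rpow hYpos.le hY2 hθ0.le
      _ = (3 : ℝ) ^ (u1 / w - e1) * (K : ℝ) ^ (w * (u1 / w - e1)) := by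
          rw [Real.mul_rpow (by norm_num) (by positivity), ← Real.rpow_mul hK0.le]
      _ ≤ (K : ℝ) ^ (e1 * w) * (K : ℝ) ^ (w * (u1 / w - e1)) :=
          mul_le_mul_of_nonneg_right e4 (by positivity)
      _ = (K : ℝ) ^ u1 := by
          rw [← Real.rpow_add hK0]
          congr 1
          field_simp
          ring
  have hYE : (Y : ℝ) ^ E ≤ (K : ℝ) ^ (e / 4 + (E' + e / 2)) := by
    calc (Y : ℝ) ^ E ≤ (3 * (K : ℝ) ^ w) ^ E := Real.rpow_le_rpow hYpos.le hY2 hE0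
      _ = (3 : ℝ) ^ E * (K : ℝ) ^ (w * E) := by
          rw [Real.mul_rpow (by norm_num) (by positivity), ← Real.rpow_mul hK0.le]
      _ ≤ (K : ℝ) ^ (e / 4) * (K : ℝ) ^ (E' + e / 2) := by
          apply mul_le_mul e2 _ (by positivity) (by positivity)
          exact Real.rpow_le_rpow_of_exponent_le hK1r (by rw [mul_comm]; exact hEw)
      _ = _ := by rw [← Real.rpow_add hK0]
  -- the scales
  obtain ⟨x0, hx0⟩ : ∃ x0 : ℕ, x0 = ⌈(K : ℝ) ^ u1⌉₊ := ⟨_, rfl⟩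
  have hx0a : (K : ℝ) ^ u1 ≤ x0 := by rw [hx0]; exact Nat.le_ceil _
  have hx0p : 0 < x0 := by
    have : (0 : ℝ) < x0 := lt_of_lt_of_le (by positivity) hx0a
    exact_mod_cast this
  obtain ⟨J, hJ⟩ : ∃ J : ℕ, J = ⌊2 * u2 * Real.log K⌋₊ + 1 := ⟨_, rfl⟩
  have hlK : 0 < Real.log K := Real.log_pos (by linarith)
  have hJ1 : (J : ℝ) ≤ (K : ℝ) ^ (e / 4) := by
    have := Nat.floor_le (show (0 : ℝ) ≤ 2 * u2 * Real.log K by positivity)
    rw [hJ]
    push_cast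
    linarith
  obtain ⟨bad, hbad⟩ : ∃ bad : ℕ → Finset ℤ, ∀ M : ℕ, bad M =
      (Icc (-(K : ℤ)) (K : ℤ)).filter (fun k => ((vals r k M ((Y : ℝ) ^ ζ)).card : ℝ) <
        δ * M * loc (X ^ 3) k M) := ⟨_, fun _ => rfl⟩
  have hbadc : ∀ j ∈ (range J).filter (fun j => ((x0 * 2 ^ j : ℕ) : ℝ) ≤ (K : ℝ) ^ u2),
      ((bad (x0 * 2 ^ j)).card : ℝ) ≤ (Y : ℝ) ^ E := by
    intro j hj
    rw [mem_filter] at hj
    rw [hbad]
    have hM1 : ((x0 * 2 ^ j : ℕ) : ℝ) ^ 3 ≤ (K : ℝ) ^ w := by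
      calc ((x0 * 2 ^ j : ℕ) : ℝ) ^ 3 ≤ ((K : ℝ) ^ u2) ^ 3 := pow_le_pow_left₀ (by positivity) hj.2 3
        _ = (K : ℝ) ^ (3 * u2) := by
            rw [← Real.rpow_natCast, ← Real.rpow_mul hK0.le]
            norm_num
            ring_nf
        _ ≤ _ := Real.rpow_le_rpow_of_exponent_le hK1r hw3
    refine HM Y (hKY0.trans hKYn) K (x0 * 2 ^ j) ?_ hHY ?_
    · have : (((x0 * 2 ^ j) ^ 3 + K : ℕ) : ℝ) ≤ Y := by
        push_cast
        push_cast at hM1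
        linarith
      exact_mod_cast this
    · refine hYθ.trans (hx0a.trans ?_)
      have : x0 ≤ x0 * 2 ^ j := Nat.le_mul_of_pos_right _ (by positivity)
      exact_mod_cast this
  have hsub : (Icc (-(K : ℤ)) (K : ℤ)).filter (fun k => ∃ x : ℕ, (K : ℝ) ^ u1 ≤ x ∧
      (x : ℝ) ≤ (K : ℝ) ^ u2 ∧
        ((vals r k x ((K : ℝ) ^ ζ)).card : ℝ) < δ / 2 * x * loc (X ^ 3) k x) ⊆
      ((range J).filter (fun j => ((x0 * 2 ^ j : ℕ) : ℝ) ≤ (K : ℝ) ^ u2)).biUnion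
        (fun j => bad (x0 * 2 ^ j)) := by
    intro k hk
    rw [mem_filter] at hk
    obtain ⟨hk1, x, hx1, hx2, hx3⟩ := hk
    have hx0x : x0 ≤ x := by
      rw [hx0]
      exact Nat.ceil_le.2 hx1
    have hq : x / x0 ≠ 0 := by
      have := Nat.div_pos hx0x hx0p
      omega
    obtain ⟨j, hj⟩ : ∃ j : ℕ, j = Nat.log 2 (x / x0) := ⟨_, rfl⟩
    have hj1 : 2 ^ j ≤ x / x0 := by rw [hj]; exact Nat.pow_log_le_self 2 hq
    have hj2 : x / x0 < 2 ^ (j + 1) := by rw [hj]; exact Nat.lt_pow_succ_log_self (by norm_num) _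
    have hj3 : x0 * 2 ^ j ≤ x := by
      calc x0 * 2 ^ j ≤ x0 * (x / x0) := Nat.mul_le_mul_left _ hj1
        _ ≤ x := Nat.mul_div_le x x0
    have hj4 : x ≤ 2 * (x0 * 2 ^ j) := by
      have := (Nat.div_lt_iff_lt_mul hx0p).1 hj2
      rw [pow_succ] at this
      nlinarith
    have hj3r : ((x0 * 2 ^ j : ℕ) : ℝ) ≤ x := by exact_mod_cast hj3
    have hj4r : (x : ℝ) ≤ 2 * ((x0 * 2 ^ j : ℕ) : ℝ) := by exact_mod_cast hj4
    rw [mem_biUnion]
    refine ⟨j, ?_, ?_⟩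
    · rw [mem_filter, mem_range]
      refine ⟨?_, hj3r.trans hx2⟩
      have h1 : ((2 : ℝ) ^ j) ≤ (K : ℝ) ^ u2 := by
        have : 2 ^ j ≤ x := by
          calc 2 ^ j ≤ x0 * 2 ^ j := Nat.le_mul_of_pos_left _ hx0p
            _ ≤ x := hj3
        have h' : ((2 : ℝ) ^ j) ≤ x := by exact_mod_cast this
        linarith
      have h3 := Real.log_le_log (by positivity) h1
      rw [Real.log_pow, Real.log_rpow hK0] at h3
      have h4 := Real.log_two_gt_d9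
      have h5 : (j : ℝ) ≤ 2 * u2 * Real.log K := by
        have : (0 : ℝ) ≤ j := Nat.cast_nonneg _
        nlinarith
      have h6 := Nat.le_floor h5
      omega
    · rw [hbad, mem_filter]
      refine ⟨hk1, ?_⟩
      have h1 := vals_mono r k (x0 * 2 ^ j) x ((Y : ℝ) ^ ζ) ((K : ℝ) ^ ζ) hj3
        (Real.rpow_le_rpow hK0.le hKY hζ.le)
      have h2 : ((vals r k (x0 * 2 ^ j) ((Y : ℝ) ^ ζ)).card : ℝ) ≤ (vals r k x ((K : ℝ) ^ ζ)).card := by
        exact_mod_cast card_le_card h1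
      have h3 := PY.loc_anti (X ^ 3) k _ _ hj3
      have h4 : 0 ≤ loc (X ^ 3) k x := by
        unfold loc
        apply prod_nonneg
        intro p hp
        have hp1 := (mem_filter.1 hp).2
        have hp0 : (0 : ℝ) < p := by exact_mod_cast hp1.pos
        have h1 : (ro (X ^ 3 : ℤ[X]) k p : ℝ) ≤ p := by
          have := ro3_pred k p hp1
          exact_mod_cast (by omega : ro (X ^ 3 : ℤ[X]) k p ≤ p)
        rw [sub_nonneg, div_le_one hp0]
        exact h1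
      calc ((vals r k (x0 * 2 ^ j) ((Y : ℝ) ^ ζ)).card : ℝ) ≤ (vals r k x ((K : ℝ) ^ ζ)).card := h2
        _ < δ / 2 * x * loc (X ^ 3) k x := hx3
        _ ≤ δ / 2 * (2 * ((x0 * 2 ^ j : ℕ) : ℝ)) * loc (X ^ 3) k x := by
            apply mul_le_mul_of_nonneg_right _ h4
            exact mul_le_mul_of_nonneg_left hj4r (by positivity)
        _ = δ * ((x0 * 2 ^ j : ℕ) : ℝ) * loc (X ^ 3) k x := by ring
        _ ≤ _ := mul_le_mul_of_nonneg_left h3 (by positivity)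
  have hcard := (card_le_card hsub).trans card_biUnion_le
  have hcard' : (((Icc (-(K : ℤ)) (K : ℤ)).filter (fun k => ∃ x : ℕ, (K : ℝ) ^ u1 ≤ x ∧
      (x : ℝ) ≤ (K : ℝ) ^ u2 ∧
        ((vals r k x ((K : ℝ) ^ ζ)).card : ℝ) < δ / 2 * x * loc (X ^ 3) k x)).card : ℝ) ≤
      ∑ j ∈ (range J).filter (fun j => ((x0 * 2 ^ j : ℕ) : ℝ) ≤ (K : ℝ) ^ u2),
        ((bad (x0 * 2 ^ j)).card : ℝ) := by exact_mod_cast hcard
  refine hcard'.trans ((sum_le_sum hbadc).trans ?_)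
  rw [sum_const, nsmul_eq_mul]
  have hc : ((((range J).filter (fun j => ((x0 * 2 ^ j : ℕ) : ℝ) ≤ (K : ℝ) ^ u2)).card : ℕ) : ℝ) ≤ J := by
    have := card_filter_le (range J) (fun j => ((x0 * 2 ^ j : ℕ) : ℝ) ≤ (K : ℝ) ^ u2)
    rw [card_range] at this
    exact_mod_cast this
  calc _ ≤ (K : ℝ) ^ (e / 4) * (K : ℝ) ^ (e / 4 + (E' + e / 2)) := by
        apply mul_le_mul (hc.trans hJ1) hYE (by positivity) (by positivity)
    _ = _ := by
        rw [← Real.rpow_add hK0]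
        congr 1
        ring

theorem loc3_nonneg (k : ℤ) (x : ℕ) : 0 ≤ loc (X ^ 3) k x := by
  unfold loc
  apply prod_nonneg
  intro p hp
  have hp1 := (mem_filter.1 hp).2
  have hp0 : (0 : ℝ) < p := by exact_mod_cast hp1.pos
  have h1 : (ro (X ^ 3 : ℤ[X]) k p : ℝ) ≤ p := by
    have := ro3_pred k p hp1
    exact_mod_cast (by omega : ro (X ^ 3 : ℤ[X]) k p ≤ p)
  rw [sub_nonneg, div_le_one hp0]
  exact h1

open Classical in
theorem chain (r : ℕ) (τ ζ υ lam : ℝ) (hζ : 0 < ζ) (h2 : 2 * ζ < τ)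
    (h4 : τ ≤ 4 * ζ) (hτ : τ < 1) (hζυ : ζ ≤ υ) (hυτ : υ < τ) (hυ2 : υ ≤ 1 / 2) (hlam : 0 < lam)
    (hJ0 : ∫ x in ζ..υ, (lam - lam / υ * x) / (τ - x) / x < Real.log (τ / ζ - 1) / τ)
    (hr : 1 / lam + 1 / υ ≤ r + 1) (a b η : ℝ) (ha : 0 < a) (hab : a ≤ b) (hη : 0 < η) (hη3 : η ≤ 1 / 3)
    (hηa : η ≤ a) (H1 : ∀ u : ℝ, a ≤ u → u ≤ b → υ * max 1 (3 * u) ≤ 1 - η)
    (H2 : ∀ u : ℝ, a ≤ u → u ≤ b → 2 * τ * max 1 (3 * u) - u ≤ 1 - η) :
    ∃ δ : ℝ, 0 < δ ∧ ∃ K0 : ℕ, ∀ K : ℕ, K0 ≤ K →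
      (((Icc (-(K : ℤ)) (K : ℤ)).filter (fun k => ∃ x : ℕ, (K : ℝ) ^ a ≤ x ∧ (x : ℝ) ≤ (K : ℝ) ^ b ∧
        ((vals r k x ((K : ℝ) ^ ζ)).card : ℝ) < δ * x * loc (X ^ 3) k x)).card : ℝ) ≤
      (K : ℝ) ^ (1 - η / 8) := by
  obtain ⟨n, hn⟩ : ∃ n : ℕ, 2 * (b - a) / η + 1 ≤ n := exists_nat_ge _
  have hn1 : (1 : ℝ) ≤ n := by
    have : 0 ≤ 2 * (b - a) / η := div_nonneg (by linarith) hη.le
    linarith
  have hn0 : (0 : ℝ) < n := by linarith
  obtain ⟨s, hs⟩ : ∃ s : ℝ, s = (b - a) / n := ⟨_, rfl⟩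
  have hs0 : 0 ≤ s := by rw [hs]; exact div_nonneg (by linarith) hn0.le
  have hs1 : s ≤ η / 2 := by
    rw [hs, div_le_iff₀ hn0]
    have h1 : 2 * (b - a) / η ≤ n := by linarith
    rw [div_le_iff₀ hη] at h1
    linarith
  have hsn : a + n * s = b := by
    rw [hs]
    field_simp
    ring
  have step : ∀ i : ℕ, i ≤ n → ∃ δ : ℝ, 0 < δ ∧ ∃ K0 : ℕ, ∀ K : ℕ, K0 ≤ K →
      (((Icc (-(K : ℤ)) (K : ℤ)).filter (fun k => ∃ x : ℕ, (K : ℝ) ^ a ≤ x ∧
        (x : ℝ) ≤ (K : ℝ) ^ (a + i * s) ∧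
        ((vals r k x ((K : ℝ) ^ ζ)).card : ℝ) < δ * x * loc (X ^ 3) k x)).card : ℝ) ≤
      (i + 1) * (K : ℝ) ^ (1 - η / 4) := by
    intro i
    induction i with
    | zero =>
      intro _
      obtain ⟨δ, hδ, K0, H⟩ := piece r τ ζ υ lam hζ h2 h4 hτ hζυ hυτ hυ2 hlam hJ0 hr a a
        (max 1 (3 * a)) (η / 4) ha le_rfl rfl (by linarith)
      refine ⟨δ, hδ, max K0 1, fun K hK => ?_⟩
      have h := H K ((le_max_left _ _).trans hK)
      have hK1 : (1 : ℝ) ≤ K := by exact_mod_cast (le_max_right _ _).trans hK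
      rw [Nat.cast_zero, zero_mul, add_zero, zero_add, one_mul]
      refine h.trans (Real.rpow_le_rpow_of_exponent_le hK1 ?_)
      have m1 := H1 a le_rfl hab
      have m2 := H2 a le_rfl hab
      have : max (max (2 / 3) (υ * max 1 (3 * a))) (max (2 * τ * max 1 (3 * a) - a) (1 - a)) ≤ 1 - η := by
        refine max_le (max_le (by linarith) m1) (max_le m2 (by linarith))
      linarith
    | succ i ih =>
      intro hi
      have hir : ((i : ℝ) + 1) ≤ n := by exact_mod_cast hi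
      obtain ⟨δ1, hδ1, K1, G1⟩ := ih (by omega)
      have hi0 : (0 : ℝ) ≤ i := Nat.cast_nonneg _
      have hu1 : a ≤ a + i * s := by nlinarith
      have hu12 : a + i * s ≤ a + (i + 1) * s := by nlinarith
      have hu2 : a + (i + 1) * s ≤ b := by nlinarith
      obtain ⟨δ2, hδ2, K2, G2⟩ := piece r τ ζ υ lam hζ h2 h4 hτ hζυ hυτ hυ2 hlam hJ0 hr
        (a + i * s) (a + (i + 1) * s) (max 1 (3 * (a + (i + 1) * s))) (η / 4) (by linarith) hu12 rfl
        (by linarith)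
      refine ⟨min δ1 δ2, lt_min hδ1 hδ2, max (max K1 K2) 1, fun K hK => ?_⟩
      have g1 := G1 K (((le_max_left _ _).trans (le_max_left _ _)).trans hK)
      have g2 := G2 K (((le_max_right _ _).trans (le_max_left _ _)).trans hK)
      have hK1 : (1 : ℝ) ≤ K := by exact_mod_cast (le_max_right _ _).trans hK
      have m1 := H1 _ (hu1.trans hu12) hu2
      have m2 := H2 _ (hu1.trans hu12) hu2
      have hmx : max (max (2 / 3) (υ * max 1 (3 * (a + (i + 1) * s))))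
          (max (2 * τ * max 1 (3 * (a + (i + 1) * s)) - (a + i * s)) (1 - (a + i * s))) ≤ 1 - η / 2 := by
        refine max_le (max_le (by linarith) (by linarith)) (max_le ?_ (by linarith))
        have : (i + 1) * s = i * s + s := by ring
        linarith
      have g2' := g2.trans (Real.rpow_le_rpow_of_exponent_le hK1
        (by linarith : _ ≤ 1 - η / 4))
      have hsub : (Icc (-(K : ℤ)) (K : ℤ)).filter (fun k => ∃ x : ℕ, (K : ℝ) ^ a ≤ x ∧
          (x : ℝ) ≤ (K : ℝ) ^ (a + ((i + 1 : ℕ) : ℝ) * s) ∧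
          ((vals r k x ((K : ℝ) ^ ζ)).card : ℝ) < min δ1 δ2 * x * loc (X ^ 3) k x) ⊆
          (Icc (-(K : ℤ)) (K : ℤ)).filter (fun k => ∃ x : ℕ, (K : ℝ) ^ a ≤ x ∧
          (x : ℝ) ≤ (K : ℝ) ^ (a + i * s) ∧
          ((vals r k x ((K : ℝ) ^ ζ)).card : ℝ) < δ1 * x * loc (X ^ 3) k x) ∪
          (Icc (-(K : ℤ)) (K : ℤ)).filter (fun k => ∃ x : ℕ, (K : ℝ) ^ (a + i * s) ≤ x ∧
          (x : ℝ) ≤ (K : ℝ) ^ (a + (i + 1) * s) ∧
          ((vals r k x ((K : ℝ) ^ ζ)).card : ℝ) < δ2 * x * loc (X ^ 3) k x) := by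
        intro k hk
        rw [mem_filter] at hk
        rw [mem_union, mem_filter, mem_filter]
        obtain ⟨hk1, x, hx1, hx2, hx3⟩ := hk
        have hl := loc3_nonneg k x
        rcases le_total (x : ℝ) ((K : ℝ) ^ (a + i * s)) with h | h
        · left
          refine ⟨hk1, x, hx1, h, hx3.trans_le ?_⟩
          apply mul_le_mul_of_nonneg_right _ hl
          exact mul_le_mul_of_nonneg_right (min_le_left _ _) (Nat.cast_nonneg _)
        · right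
          refine ⟨hk1, x, h, ?_, hx3.trans_le ?_⟩
          · push_cast at hx2
            exact hx2
          · apply mul_le_mul_of_nonneg_right _ hl
            exact mul_le_mul_of_nonneg_right (min_le_right _ _) (Nat.cast_nonneg _)
      have hc := (card_le_card hsub).trans (card_union_le _ _)
      have hc' := (Nat.cast_le (α := ℝ)).2 hc
      refine hc'.trans ?_
      push_cast
      linarith
  obtain ⟨δ, hδ, K0, H⟩ := step n le_rfl
  have ev1 : ∀ᶠ K : ℕ in atTop, ((n : ℝ) + 1) ≤ (K : ℝ) ^ (η / 8) :=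
    tendsto_natCast_atTop_atTop.eventually
      ((tendsto_rpow_atTop (by linarith)).eventually_ge_atTop _)
  obtain ⟨K1, hK1⟩ := eventually_atTop.1 ev1
  refine ⟨δ, hδ, max (max K0 K1) 1, fun K hK => ?_⟩
  have h := H K (((le_max_left _ _).trans (le_max_left _ _)).trans hK)
  have h1 := hK1 K (((le_max_right _ _).trans (le_max_left _ _)).trans hK)
  have hK1 : (1 : ℝ) ≤ K := by exact_mod_cast (le_max_right _ _).trans hK
  have hK0 : (0 : ℝ) < K := by linarith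
  rw [hsn] at h
  refine h.trans ?_
  calc ((n : ℝ) + 1) * (K : ℝ) ^ (1 - η / 4) ≤ (K : ℝ) ^ (η / 8) * (K : ℝ) ^ (1 - η / 4) :=
        mul_le_mul_of_nonneg_right h1 (by positivity)
    _ = _ := by
        rw [← Real.rpow_add hK0]
        congr 1
        ring

end Pool.Agent.K3h21.MK
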